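import Mathlib

namespace Pool.Agent.Work.MP_37ce0f_lc.N

/-- The root `none` and the vertices `(i, b, t)`: layer `i`, side `b`, place `t` on the path. -/
abbrev V (k L : ℕ) : Type := Option (Fin k × Bool × Fin (L + 1))

/-- `k` triangles with the common vertex `none`; the two other vertices `(i, b, 0)` of the
triangle `i` carry pendant paths `(i, b, 0), (i, b, 1), …, (i, b, L)`. -/
def G (k L : ℕ) : SimpleGraph (V k L) := SimpleGraph.fromRel fun x y =>
  (x = none ∧ ∃ i b, y = some (i, b, 0)) ∨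
  (∃ i, x = some (i, false, 0) ∧ y = some (i, true, 0)) ∨
  ∃ i b, ∃ t : Fin L, x = some (i, b, t.castSucc) ∧ y = some (i, b, t.succ)

/-- A grid point as a point of the plane. -/
def toR (p : ℤ × ℤ) : ℝ × ℝ := ((p.1 : ℝ), (p.2 : ℝ))

/-- Planarity of the straight-line drawing `p`: distinct vertices get distinct points, an edge
passes through no vertex except its ends, two different edges meet only in vertices. -/
def Planar {X : Type} (H : SimpleGraph X) (p : X → ℤ × ℤ) : Prop :=
  Function.Injective p ∧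
  (∀ u v w, H.Adj u v → toR (p w) ∈ segment ℝ (toR (p u)) (toR (p v)) → w = u ∨ w = v) ∧
  ∀ u v x y, H.Adj u v → H.Adj x y → s(u, v) ≠ s(x, y) →
    ∀ q ∈ segment ℝ (toR (p u)) (toR (p v)), q ∈ segment ℝ (toR (p x)) (toR (p y)) →
      ∃ w, q = toR (p w)

/-- Any two vertices are joined by a path such that some vector has positive scalar product
with every edge of the path, oriented from `u` to `v`. -/
def IsMono {X : Type} (H : SimpleGraph X) (p : X → ℤ × ℤ) : Prop :=
  ∀ u v, ∃ w : H.Walk u v, w.IsPath ∧ ∃ d : ℝ × ℝ, ∀ e ∈ w.darts,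
    0 < d.1 * (((p e.snd).1 : ℝ) - (p e.fst).1) + d.2 * (((p e.snd).2 : ℝ) - (p e.fst).2)

/-- All vertices lie in an axis-parallel box of width `W` and height `H`. -/
def InBox {X : Type} (p : X → ℤ × ℤ) (W H : ℕ) : Prop :=
  ∃ x₀ y₀ : ℤ, ∀ v, x₀ ≤ (p v).1 ∧ (p v).1 ≤ x₀ + W ∧ y₀ ≤ (p v).2 ∧ (p v).2 ≤ y₀ + H

/-- The embedding: every vertex of layer `i` lies in the triangle of every layer `j > i`. -/
def Nested {k L : ℕ} (p : V k L → ℤ × ℤ) : Prop :=
  ∀ i j : Fin k, i < j → ∀ b t, toR (p (some (i, b, t))) ∈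
    convexHull ℝ {toR (p none), toR (p (some (j, false, 0))), toR (p (some (j, true, 0)))}

/-- The pendant paths of layer `i` run outside the triangle of layer `i`. -/
def Outside {k L : ℕ} (p : V k L → ℤ × ℤ) : Prop :=
  ∀ (i : Fin k) b t, t ≠ 0 → toR (p (some (i, b, t))) ∉
    convexHull ℝ {toR (p none), toR (p (some (i, false, 0))), toR (p (some (i, true, 0)))}

end Pool.Agent.Work.MP_37ce0f_lc.N
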