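import Pool.Agent.Work.MP_37ce0f_lc.N.Defs

namespace Pool.Agent.Work.MP_37ce0f_lc.N
open Finset

theorem tri_mem {R A B q : ℝ × ℝ} : q ∈ convexHull ℝ {R, A, B} ↔ ∃ a b : ℝ, 0 ≤ a ∧ 0 ≤ b ∧
    a + b ≤ 1 ∧ q.1 - R.1 = a * (A.1 - R.1) + b * (B.1 - R.1) ∧
      q.2 - R.2 = a * (A.2 - R.2) + b * (B.2 - R.2) := by
  constructor
  · intro h
    refine convexHull_min (t := {q : ℝ × ℝ | ∃ a b : ℝ, 0 ≤ a ∧ 0 ≤ b ∧
      a + b ≤ 1 ∧ q.1 - R.1 = a * (A.1 - R.1) + b * (B.1 - R.1) ∧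
      q.2 - R.2 = a * (A.2 - R.2) + b * (B.2 - R.2)}) ?_ ?_ h
    · rintro _ (rfl | rfl | rfl)
      · exact ⟨0, 0, by simp⟩
      · exact ⟨1, 0, by simp⟩
      · exact ⟨0, 1, by simp⟩
    · rintro x ⟨a, b, h1, h2, h3, h4, h5⟩ y ⟨c, d, k1, k2, k3, k4, k5⟩ s t hs ht e
      obtain rfl : t = 1 - s := by linarith
      refine ⟨s * a + (1 - s) * c, s * b + (1 - s) * d, by positivity, by positivity,
        by nlinarith, ?_, ?_⟩
      · simp only [Prod.fst_add, Prod.smul_fst, smul_eq_mul]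
        linear_combination s * h4 + (1 - s) * k4
      · simp only [Prod.snd_add, Prod.smul_snd, smul_eq_mul]
        linear_combination s * h5 + (1 - s) * k5
  · rintro ⟨a, b, h1, h2, h3, h4, h5⟩
    have := (convex_convexHull ℝ ({R, A, B} : Set (ℝ × ℝ))).sum_mem (t := (univ : Finset (Fin 3)))
      (w := ![1 - a - b, a, b]) (z := ![R, A, B])
      (fun i _ => by fin_cases i <;> simp <;> linarith) (by simp [Fin.sum_univ_three]; ring)
      (fun i _ => subset_convexHull _ _ (by fin_cases i <;> simp))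
    convert this using 1
    simp only [Fin.sum_univ_three]
    ext
    · simp; linarith
    · simp; linarith

variable {k L : ℕ}

theorem leave {i : Fin k} {b : Bool} {y : V k L} (w : (G k L).Walk (some (i, b, Fin.last L)) y)
    (hy : ∀ c t, y ≠ some (i, c, t)) (F : V k L → ℝ) (h : ∀ e ∈ w.darts, F e.fst < F e.snd) :
    (∀ t : Fin L, F (some (i, b, t.succ)) < F (some (i, b, t.castSucc))) ∧
      F (some (i, b, 0)) < F none := by
  constructor
  · intro t
    obtain ⟨⟨⟨x, z⟩, ha⟩, hd, ⟨s, rfl, hs⟩, h2⟩ := w.exists_boundary_dart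
      {v | ∃ s, v = some (i, b, s) ∧ t.succ ≤ s} ⟨_, rfl, Fin.le_last _⟩
      (fun ⟨s, e, _⟩ => hy _ _ e)
    have k := h _ hd
    have s0 : s ≠ 0 := fun e => by rw [e] at hs; exact absurd hs (by simp)
    rcases ha.2 with (⟨e, -⟩ | ⟨j, e, -⟩ | ⟨j, c, u, e, rfl⟩) |
      (⟨-, j, c, e⟩ | ⟨j, -, e⟩ | ⟨j, c, u, rfl, e⟩) <;>
      simp only [Option.some.injEq, Prod.mk.injEq, reduceCtorEq] at e
    · exact absurd e.2.2 s0
    · obtain ⟨rfl, rfl, rfl⟩ := e
      exact absurd ⟨_, rfl, hs.trans (Fin.castSucc_lt_succ).le⟩ h2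
    · exact absurd e.2.2 s0
    · exact absurd e.2.2 s0
    · obtain ⟨rfl, rfl, rfl⟩ := e
      have : ¬ t.succ ≤ u.castSucc := fun g => h2 ⟨_, rfl, g⟩
      obtain rfl : u = t := by
        simp only [Fin.le_def, Fin.val_succ, Fin.val_castSucc] at this hs
        exact Fin.ext (by omega)
      exact k
  · obtain ⟨⟨⟨x, z⟩, ha⟩, hd, ⟨c, s, rfl⟩, h2⟩ := w.exists_boundary_dart
      {v | ∃ c s, v = some (i, c, s)} ⟨_, _, rfl⟩ (fun ⟨c, s, e⟩ => hy _ _ e)
    have k : F (some (i, c, 0)) < F none := by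
      have k := h _ hd
      rcases ha.2 with (⟨e, -⟩ | ⟨j, e, rfl⟩ | ⟨j, c, u, e, rfl⟩) |
        (⟨rfl, j, c, e⟩ | ⟨j, rfl, e⟩ | ⟨j, c, u, rfl, e⟩) <;>
        simp only [Option.some.injEq, Prod.mk.injEq, reduceCtorEq] at e
      all_goals obtain ⟨rfl, rfl, rfl⟩ := e
      · exact absurd ⟨_, _, rfl⟩ h2
      · exact absurd ⟨_, _, rfl⟩ h2
      · exact k
      · exact absurd ⟨_, _, rfl⟩ h2
      · exact absurd ⟨_, _, rfl⟩ h2
    obtain ⟨⟨⟨x, z⟩, ha⟩, hd, ⟨s, rfl⟩, h2⟩ := w.exists_boundary_dart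
      {v | ∃ s, v = some (i, b, s)} ⟨_, rfl⟩ (fun ⟨s, e⟩ => hy _ _ e)
    have k' := h _ hd
    rcases ha.2 with (⟨e, -⟩ | ⟨j, e, rfl⟩ | ⟨j, c, u, e, rfl⟩) |
      (⟨rfl, j, c, e⟩ | ⟨j, rfl, e⟩ | ⟨j, c, u, rfl, e⟩) <;>
      simp only [Option.some.injEq, Prod.mk.injEq, reduceCtorEq] at e
    all_goals obtain ⟨rfl, rfl, rfl⟩ := e
    · cases c
      · exact k
      · exact k'.trans k
    · exact absurd ⟨_, rfl⟩ h2
    · exact k'
    · cases c
      · exact k'.trans k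
      · exact k
    · exact absurd ⟨_, rfl⟩ h2

/-- one functional is negative on the leg `(i, b)` and positive on the leg `(j, c)` -/
theorem sepf {p : V k L → ℤ × ℤ} (h : IsMono (G k L) p) {i j : Fin k} (hij : i ≠ j) (b c : Bool) :
    ∃ (f g : ℝ) (F : V k L → ℝ), (∀ v, F v = f * (p v).1 + g * (p v).2) ∧
      (∀ t : Fin L, F (some (i, b, t.succ)) < F (some (i, b, t.castSucc))) ∧
      F (some (i, b, 0)) < F none ∧
      (∀ t : Fin L, F (some (j, c, t.castSucc)) < F (some (j, c, t.succ))) ∧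
      F none < F (some (j, c, 0)) := by
  obtain ⟨w, -, d, hd⟩ := h (some (i, b, Fin.last L)) (some (j, c, Fin.last L))
  have h1 := leave w (fun _ _ e => by simp at e; exact hij e.1.symm)
    (fun v => d.1 * (p v).1 + d.2 * (p v).2) (fun e he => by have := hd e he; linarith)
  have h2 := leave w.reverse (fun _ _ e => by simp at e; exact hij e.1)
    (fun v => -(d.1 * (p v).1 + d.2 * (p v).2)) (fun e he => by
      have := hd _ (SimpleGraph.Walk.mem_darts_reverse.1 he)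
      simp only [SimpleGraph.Dart.symm_toProd, Prod.snd_swap, Prod.fst_swap] at this
      linarith)
  exact ⟨d.1, d.2, _, fun _ => rfl, h1.1, h1.2, fun t => by have := h2.1 t; linarith,
    by have := h2.2; linarith⟩

theorem wedge {A1 A2 B1 B2 D1 D2 f1 f2 g1 g2 a b : ℝ} (ha : 0 ≤ a) (hb : 0 ≤ b)
    (fU : f1 * (a * A1 + b * B1) + f2 * (a * A2 + b * B2) < 0) (fD : f1 * D1 + f2 * D2 < 0)
    (fA : 0 < f1 * A1 + f2 * A2)
    (gU : g1 * (a * A1 + b * B1) + g2 * (a * A2 + b * B2) < 0) (gD : g1 * D1 + g2 * D2 < 0)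
    (gB : 0 < g1 * B1 + g2 * B2) : A1 * B2 - A2 * B1 ≠ 0 ∧
      0 < (D1 * B2 - D2 * B1) / (A1 * B2 - A2 * B1) ∧
      0 < (A1 * D2 - A2 * D1) / (A1 * B2 - A2 * B1) := by
  have e1 : (f1 * g2 - f2 * g1) * (A1 * B2 - A2 * B1) =
    (f1 * A1 + f2 * A2) * (g1 * B1 + g2 * B2) - (f1 * B1 + f2 * B2) * (g1 * A1 + g2 * A2) := by ring
  have e2 : (f1 * g2 - f2 * g1) * (D1 * B2 - D2 * B1) =
    (f1 * D1 + f2 * D2) * (g1 * B1 + g2 * B2) - (f1 * B1 + f2 * B2) * (g1 * D1 + g2 * D2) := by ring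
  have e3 : (f1 * g2 - f2 * g1) * (A1 * D2 - A2 * D1) =
    (f1 * A1 + f2 * A2) * (g1 * D1 + g2 * D2) - (f1 * D1 + f2 * D2) * (g1 * A1 + g2 * A2) := by ring
  have u1 : a * (f1 * A1 + f2 * A2) + b * (f1 * B1 + f2 * B2) < 0 := by linarith
  have u2 : a * (g1 * A1 + g2 * A2) + b * (g1 * B1 + g2 * B2) < 0 := by linarith
  generalize f1 * A1 + f2 * A2 = p at *
  generalize f1 * B1 + f2 * B2 = q at *
  generalize g1 * A1 + g2 * A2 = r at *
  generalize g1 * B1 + g2 * B2 = s at *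
  generalize f1 * D1 + f2 * D2 = u at *
  generalize g1 * D1 + g2 * D2 = v at *
  generalize f1 * g2 - f2 * g1 = c at *
  generalize A1 * B2 - A2 * B1 = S at *
  have q0 : q < 0 := by by_contra hn; nlinarith [mul_nonneg ha fA.le, mul_nonneg hb (not_lt.1 hn)]
  have r0 : r < 0 := by by_contra hn; nlinarith [mul_nonneg hb gB.le, mul_nonneg ha (not_lt.1 hn)]
  have b0 : 0 < b := by
    rcases hb.eq_or_lt with rfl | h
    · nlinarith [mul_nonneg ha fA.le]
    · exact h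
  have dl : c * S < 0 := by
    rw [e1]
    have := mul_pos_of_neg_of_neg u1 r0
    have := mul_neg_of_pos_of_neg fA u2
    by_contra hn
    have := mul_nonneg b0.le (not_lt.1 hn)
    nlinarith
  have c0 : c ≠ 0 := fun e => by rw [e] at dl; simp at dl
  refine ⟨fun e => by rw [e] at dl; simp at dl, ?_, ?_⟩
  · rw [← mul_div_mul_left _ _ c0, e2]
    exact div_pos_of_neg_of_neg (by nlinarith [mul_pos_of_neg_of_neg q0 gD]) dl
  · rw [← mul_div_mul_left _ _ c0, e3]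
    exact div_pos_of_neg_of_neg (by nlinarith [mul_pos_of_neg_of_neg fD r0]) dl

theorem pack {I : Type} (e τ : I → ℝ) (he : ∀ i, 0 ≤ e i) (hτ : ∀ i, 0 ≤ τ i)
    (h : ∀ i j, i ≠ j → τ j ≤ τ i → 3 ≤ e i + e j + (τ i - τ j)) (m : ℕ) :
    ∀ (s : Finset I) (z : I), s.card = m → z ∉ s → (∀ i ∈ s, τ i ≤ τ z) →
      3 * (m : ℝ) ≤ 2 * ∑ i ∈ s, e i + e z + τ z := by
  classical
  induction m with
  | zero =>
    intro s z hs _ _
    have := he z; have := hτ z
    rw [card_eq_zero.1 hs]; simp; linarith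
  | succ m ih =>
    intro s z hs hz hm
    obtain ⟨y, hy, hy'⟩ := s.exists_max_image τ (card_pos.1 (by omega))
    have k1 := ih (s.erase y) y (by rw [card_erase_of_mem hy]; omega) (notMem_erase _ _)
      (fun i hi => hy' i (mem_of_mem_erase hi))
    have k2 := h z y (fun e => hz (e ▸ hy)) (hm y hy)
    rw [← add_sum_erase s e hy]
    push_cast; linarith

theorem amgm {x y z : ℝ} (hx : 0 < x) (hy : 0 < y) (hz : 0 ≤ z) (h : 1 ≤ x * y * z) :
    3 ≤ x + y + z := by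
  by_contra hn
  have h1 : x * y * 4 ≤ (x + y) ^ 2 := by nlinarith [sq_nonneg (x - y)]
  have h2 : (x + y) ^ 2 * z ≤ (x + y) ^ 2 * (3 - (x + y)) :=
    mul_le_mul_of_nonneg_left (by linarith) (by positivity)
  have h3 : x * y * 4 * z ≤ (x + y) ^ 2 * z := mul_le_mul_of_nonneg_right h1 hz
  have h4 : 0 < (x + y) ^ 2 * (3 - (x + y) - z) := mul_pos (by positivity) (by linarith)
  nlinarith [mul_nonneg (sq_nonneg (x + y - 2)) (show 0 ≤ x + y + 1 by linarith)]

theorem tri_box {u v a s t b W H : ℝ} (u0 : 0 ≤ u) (u1 : u ≤ W) (v0 : 0 ≤ v) (v1 : v ≤ W)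
    (a0 : 0 ≤ a) (a1 : a ≤ W) (s0 : 0 ≤ s) (s1 : s ≤ H) (t0 : 0 ≤ t) (t1 : t ≤ H) (b0 : 0 ≤ b)
    (b1 : b ≤ H) : (u - a) * (t - b) - (s - b) * (v - a) ≤ W * H := by
  have W0 : 0 ≤ W := u0.trans u1
  have key : ∀ x c : ℝ, 0 ≤ x → x ≤ W → x * c ≤ W * max c 0 := fun x c h0 h1 =>
    (mul_le_mul_of_nonneg_left (le_max_left _ _) h0).trans
      (mul_le_mul_of_nonneg_right h1 (le_max_right _ _))
  have k1 := key u (t - b) u0 u1
  have k2 := key v (b - s) v0 v1
  have k3 := key a (s - t) a0 a1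
  have k4 : max (t - b) 0 + max (b - s) 0 + max (s - t) 0 ≤ H := by
    simp only [max_def]; split_ifs <;> linarith
  have := mul_le_mul_of_nonneg_left k4 W0
  nlinarith

theorem tele {m : ℕ} (f : Fin (m + 1) → ℝ) :
    ∑ i : Fin m, (f i.succ - f i.castSucc) = f (Fin.last m) - f 0 := by
  rw [sum_sub_distrib]
  have := Fin.sum_univ_succ f
  have := Fin.sum_univ_castSucc f
  linarith

theorem coords {a1 a2 b1 b2 u1 u2 v1 v2 S : ℝ} (hS : S = a1 * b2 - a2 * b1) (h : S ≠ 0) :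
    v1 - u1 = ((v1 * b2 - v2 * b1) / S - (u1 * b2 - u2 * b1) / S) * a1 +
      ((a1 * v2 - a2 * v1) / S - (a1 * u2 - a2 * u1) / S) * b1 ∧
    v2 - u2 = ((v1 * b2 - v2 * b1) / S - (u1 * b2 - u2 * b1) / S) * a2 +
      ((a1 * v2 - a2 * v1) / S - (a1 * u2 - a2 * u1) / S) * b2 := by
  constructor <;> field_simp <;> rw [hS] <;> ring

/-- vectors of the open quadrant with small total level and large mutual determinants -/
theorem count {m : ℕ} {l s : ℝ} (hm : 0 < m) (hl : 0 < l) (hs : 0 < s) (P Q : Fin (m + 1) → ℝ)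
    (P0 : ∀ i, 0 < P i) (Q0 : ∀ i, 0 < Q i) (sm : l * ∑ i, (P i + Q i) ≤ 1)
    (cr : ∀ i j, i ≠ j → 1 ≤ |P j * Q i - Q j * P i| * s) : l ^ 2 * m ^ 3 ≤ s := by
  have hm0 : (0 : ℝ) < m := by exact_mod_cast hm
  have c0 : ∀ i, 0 < P i + Q i := fun i => add_pos (P0 i) (Q0 i)
  obtain ⟨z, -, hz⟩ := (univ : Finset (Fin (m + 1))).exists_max_image
    (fun i => s / (m * l) ^ 2 * (Q i / (P i + Q i))) univ_nonempty
  have pk := pack (fun i => m * l * (P i + Q i)) (fun i => s / (m * l) ^ 2 * (Q i / (P i + Q i)))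
    (fun i => by have := c0 i; positivity) (fun i => by have := c0 i; have := Q0 i; positivity)
    (fun i j hij h => by
      have ci := c0 i
      have cj := c0 j
      refine amgm (by positivity) (by positivity) (by linarith) ?_
      have e : m * l * (P i + Q i) * (m * l * (P j + Q j)) * (s / (m * l) ^ 2 *
          (Q i / (P i + Q i)) - s / (m * l) ^ 2 * (Q j / (P j + Q j))) =
          (P j * Q i - Q j * P i) * s := by field_simp; ring
      have g : 0 ≤ (P j * Q i - Q j * P i) * s := by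
        rw [← e]; exact mul_nonneg (by positivity) (by linarith)
      have := cr i j hij
      rwa [abs_of_nonneg (nonneg_of_mul_nonneg_left g hs), ← e] at this)
    m (univ.erase z) z (by simp) (notMem_erase _ _) (fun i _ => hz i (mem_univ _))
  have e1 := add_sum_erase univ (fun i => m * l * (P i + Q i)) (mem_univ z)
  have e2 : ∑ i, m * l * (P i + Q i) ≤ m := by
    rw [← mul_sum, mul_assoc]; exact mul_le_of_le_one_right hm0.le sm
  have e3 : s / (m * l) ^ 2 * (Q z / (P z + Q z)) ≤ s / (m * l) ^ 2 :=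
    mul_le_of_le_one_right (by positivity) ((div_le_one (c0 z)).2 (by linarith [P0 z]))
  have e4 : 0 ≤ m * l * (P z + Q z) := by have := c0 z; positivity
  have e5 : (m : ℝ) ≤ s / (m * l) ^ 2 := by linarith
  rw [le_div_iff₀ (by positivity)] at e5
  linarith

theorem lower {p : V k L → ℤ × ℤ} {W H : ℕ} (hm : IsMono (G k L) p) (hn : Nested p)
    (hb : InBox p W H) : L ^ 2 * (k - 2) ^ 3 ≤ W * H := by
  rcases Nat.eq_zero_or_pos L with rfl | hL
  · simp
  rcases le_or_gt k 2 with hk | hk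
  · rw [Nat.sub_eq_zero_of_le hk]; simp
  obtain ⟨m, rfl⟩ : ∃ m, k = m + 1 + 1 := ⟨k - 2, by omega⟩
  have hL0 : (0 : ℝ) < L := by exact_mod_cast hL
  obtain ⟨x, hx⟩ : ∃ x : V (m + 1 + 1) L → ℝ, ∀ v, x v = ((p v).1 : ℝ) - (p none).1 :=
    ⟨_, fun _ => rfl⟩
  obtain ⟨y, hy⟩ : ∃ y : V (m + 1 + 1) L → ℝ, ∀ v, y v = ((p v).2 : ℝ) - (p none).2 :=
    ⟨_, fun _ => rfl⟩
  obtain ⟨A, hA⟩ : ∃ A : V (m + 1 + 1) L, some (Fin.last _, false, 0) = A := ⟨_, rfl⟩
  obtain ⟨B, hB⟩ : ∃ B : V (m + 1 + 1) L, some (Fin.last _, true, 0) = B := ⟨_, rfl⟩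
  obtain ⟨S, hS⟩ : ∃ S : ℝ, S = x A * y B - y A * x B := ⟨_, rfl⟩
  have nest : ∀ i j : Fin (m + 1 + 1), i < j → ∀ b t, ∃ α β : ℝ, 0 ≤ α ∧ 0 ≤ β ∧ α + β ≤ 1 ∧
      x (some (i, b, t)) = α * x (some (j, false, 0)) + β * x (some (j, true, 0)) ∧
      y (some (i, b, t)) = α * y (some (j, false, 0)) + β * y (some (j, true, 0)) :=
    fun i j h b t => by simp only [hx, hy]; exact tri_mem.1 (hn i j h b t)
  obtain ⟨X, hX⟩ : ∃ X : V (m + 1 + 1) L → ℝ, ∀ v, X v = (x v * y B - y v * x B) / S :=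
    ⟨_, fun _ => rfl⟩
  obtain ⟨Y, hY⟩ : ∃ Y : V (m + 1 + 1) L → ℝ, ∀ v, Y v = (x A * y v - y A * x v) / S :=
    ⟨_, fun _ => rfl⟩
  have wd : ∀ (i : Fin (m + 1)) b (t : Fin L), S ≠ 0 ∧
      0 < X (some (i.castSucc, b, t.succ)) - X (some (i.castSucc, b, t.castSucc)) ∧
      0 < Y (some (i.castSucc, b, t.succ)) - Y (some (i.castSucc, b, t.castSucc)) := by
    intro i b t
    obtain ⟨α, β, h1, h2, -, h4, h5⟩ := nest _ _ (Fin.castSucc_lt_last i) b 0
    obtain ⟨f1, f2, F, e, k1, k2, -, k4⟩ := sepf hm (Fin.castSucc_lt_last i).ne b false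
    obtain ⟨g1, g2, F', e', l1, l2, -, l4⟩ := sepf hm (Fin.castSucc_lt_last i).ne b true
    have k1 := k1 t
    have l1 := l1 t
    simp only [e, hA] at k1 k2 k4
    simp only [e', hB] at l1 l2 l4
    rw [hA, hB] at h4 h5
    have := wedge (A1 := x A) (A2 := y A) (B1 := x B) (B2 := y B) (f1 := f1) (f2 := f2) (g1 := g1)
      (g2 := g2)
      (D1 := x (some (i.castSucc, b, t.succ)) - x (some (i.castSucc, b, t.castSucc)))
      (D2 := y (some (i.castSucc, b, t.succ)) - y (some (i.castSucc, b, t.castSucc))) h1 h2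
      (by rw [← h4, ← h5]; simp only [hx, hy]; linarith) (by simp only [hx, hy]; linarith)
      (by simp only [hx, hy]; linarith)
      (by rw [← h4, ← h5]; simp only [hx, hy]; linarith) (by simp only [hx, hy]; linarith)
      (by simp only [hx, hy]; linarith)
    rw [← hS] at this
    refine ⟨this.1, this.2.1.trans_eq ?_, this.2.2.trans_eq ?_⟩
    · simp only [hX]; ring
    · simp only [hY]; ring
  have S0 : S ≠ 0 := (wd 0 false ⟨0, hL⟩).1
  obtain ⟨l, hl⟩ : ∃ l : V (m + 1 + 1) L → ℝ, ∀ v, l v = X v + Y v := ⟨_, fun _ => rfl⟩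
  have lA : l A = 1 := by simp only [hl, hX, hY]; field_simp; rw [hS]; ring
  have lB : l B = 1 := by simp only [hl, hX, hY]; field_simp; rw [hS]; ring
  have lin : ∀ i j : Fin (m + 1 + 1), i < j → ∀ b t, ∃ α β : ℝ, 0 ≤ α ∧ 0 ≤ β ∧ α + β ≤ 1 ∧
      l (some (i, b, t)) = α * l (some (j, false, 0)) + β * l (some (j, true, 0)) := by
    intro i j h b t
    obtain ⟨α, β, h1, h2, h3, h4, h5⟩ := nest i j h b t
    exact ⟨α, β, h1, h2, h3, by simp only [hl, hX, hY]; rw [h4, h5]; ring⟩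
  obtain ⟨M, hM⟩ : ∃ M : Fin (m + 1 + 1) → ℝ,
      ∀ i, M i = max (l (some (i, false, 0))) (l (some (i, true, 0))) := ⟨_, fun _ => rfl⟩
  have M1 : M (Fin.last _) = 1 := by rw [hM, hA, hB, lA, lB, max_self]
  have M0 : ∀ i, 0 ≤ M i := by
    intro i
    rcases (Fin.le_last i).eq_or_lt with rfl | h
    · rw [M1]; norm_num
    · obtain ⟨α, β, h1, h2, h3, h4⟩ := lin i _ h false 0
      rw [hM]
      exact le_max_of_le_left (by rw [h4, hA, hB, lA, lB]; linarith)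
  have ch : ∀ i : Fin (m + 1), ∃ (b : Bool) (t : Fin L), L * (l (some (i.castSucc, b, t.succ)) -
      l (some (i.castSucc, b, t.castSucc))) ≤ M i.succ - M i.castSucc := by
    intro i
    obtain ⟨b, hb⟩ : ∃ b, l (some (i.castSucc, b, 0)) = M i.castSucc := by
      rw [hM]
      rcases max_choice (l (some (i.castSucc, false, 0))) (l (some (i.castSucc, true, 0))) with
        h | h
      · exact ⟨false, h.symm⟩
      · exact ⟨true, h.symm⟩
    obtain ⟨t, -, ht⟩ := (univ : Finset (Fin L)).exists_min_image (fun t =>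
      l (some (i.castSucc, b, t.succ)) - l (some (i.castSucc, b, t.castSucc))) ⟨⟨0, hL⟩, mem_univ _⟩
    have k1 := card_nsmul_le_sum _ _ _ ht
    rw [tele (fun t => l (some (i.castSucc, b, t))), card_univ, Fintype.card_fin, nsmul_eq_mul,
      hb] at k1
    obtain ⟨α, β, h1, h2, h3, h4⟩ := lin _ _ (Fin.castSucc_lt_succ (i := i)) b (Fin.last L)
    have k2 := mul_le_mul_of_nonneg_left
      (le_max_left (l (some (i.succ, false, 0))) (l (some (i.succ, true, 0)))) h1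
    have k3 := mul_le_mul_of_nonneg_left
      (le_max_right (l (some (i.succ, false, 0))) (l (some (i.succ, true, 0)))) h2
    have k4 := mul_le_mul_of_nonneg_right h3 (M0 i.succ)
    rw [← hM] at k2 k3
    exact ⟨b, t, by linarith⟩
  choose b t hbt using ch
  obtain ⟨u, hu⟩ : ∃ u : Fin (m + 1) → V (m + 1 + 1) L,
      ∀ i, some (i.castSucc, b i, (t i).castSucc) = u i := ⟨_, fun _ => rfl⟩
  obtain ⟨v, hv⟩ : ∃ v : Fin (m + 1) → V (m + 1 + 1) L,
      ∀ i, some (i.castSucc, b i, (t i).succ) = v i := ⟨_, fun _ => rfl⟩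
  obtain ⟨P, hP⟩ : ∃ P : Fin (m + 1) → ℝ, ∀ i, P i = X (v i) - X (u i) := ⟨_, fun _ => rfl⟩
  obtain ⟨Q, hQ⟩ : ∃ Q : Fin (m + 1) → ℝ, ∀ i, Q i = Y (v i) - Y (u i) := ⟨_, fun _ => rfl⟩
  have P0 : ∀ i, 0 < P i := fun i => by rw [hP, ← hu, ← hv]; exact (wd i (b i) (t i)).2.1
  have Q0 : ∀ i, 0 < Q i := fun i => by rw [hQ, ← hu, ← hv]; exact (wd i (b i) (t i)).2.2
  have sm : L * ∑ i, (P i + Q i) ≤ 1 := by
    have k1 := sum_le_sum (s := univ) (fun i _ => hbt i)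
    rw [tele M, ← mul_sum, M1] at k1
    have k3 : ∑ i, (P i + Q i) = ∑ i, (l (some (i.castSucc, b i, (t i).succ)) -
        l (some (i.castSucc, b i, (t i).castSucc))) :=
      sum_congr rfl fun i _ => by rw [hP, hQ, hl, hl, hu, hv]; ring
    rw [k3]; have := M0 0; linarith
  have dx : ∀ i, x (v i) - x (u i) = P i * x A + Q i * x B ∧
      y (v i) - y (u i) = P i * y A + Q i * y B := fun i => by
    rw [hP, hQ, hX, hX, hY, hY]; exact coords hS S0
  have cr : ∀ i j, i ≠ j → 1 ≤ |P j * Q i - Q j * P i| * |S| := by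
    intro i j hij
    obtain ⟨f1, f2, F, e, k1, -, k3, -⟩ := sepf hm
      (show i.castSucc ≠ j.castSucc by simpa using hij) (b i) (b j)
    have k1 := k1 (t i)
    have k3 := k3 (t j)
    simp only [e, hu, hv] at k1 k3
    have z : (P j * Q i - Q j * P i) * S =
        ((((p (v j)).1 - (p (u j)).1) * ((p (v i)).2 - (p (u i)).2) -
          ((p (v j)).2 - (p (u j)).2) * ((p (v i)).1 - (p (u i)).1) : ℤ) : ℝ) := by
      have : (P j * Q i - Q j * P i) * S = (x (v j) - x (u j)) * (y (v i) - y (u i)) -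
          (y (v j) - y (u j)) * (x (v i) - x (u i)) := by
        rw [(dx i).1, (dx i).2, (dx j).1, (dx j).2, hS]; ring
      rw [this]; simp only [hx, hy]; push_cast; ring
    have n1 : f1 * (x (v i) - x (u i)) + f2 * (y (v i) - y (u i)) < 0 := by
      simp only [hx, hy]; linarith
    have n2 : 0 < f1 * (x (v j) - x (u j)) + f2 * (y (v j) - y (u j)) := by
      simp only [hx, hy]; linarith
    rw [(dx _).1, (dx _).2] at n1 n2
    have ne : P j * Q i - Q j * P i ≠ 0 := fun e0 => by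
      have a1 := mul_neg_of_neg_of_pos n1 (P0 j)
      have a2 := mul_pos n2 (P0 i)
      have : (f1 * (P i * x A + Q i * x B) + f2 * (P i * y A + Q i * y B)) * P j =
          (f1 * (P j * x A + Q j * x B) + f2 * (P j * y A + Q j * y B)) * P i := by
        linear_combination (f1 * x B + f2 * y B) * e0
      exact absurd (this ▸ a1) a2.not_gt
    have ne' := mul_ne_zero ne S0
    rw [← abs_mul, z]
    rw [z] at ne'
    exact_mod_cast Int.one_le_abs (by exact_mod_cast ne')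
  have e5 := count (by omega) hL0 (abs_pos.2 S0) P Q P0 Q0 sm cr
  obtain ⟨x0, y0, hb⟩ := hb
  have bx : ∀ v, (0 : ℝ) ≤ (p v).1 - x0 ∧ ((p v).1 : ℝ) - x0 ≤ W ∧ (0 : ℝ) ≤ (p v).2 - y0 ∧
      ((p v).2 : ℝ) - y0 ≤ H := fun v => by
    obtain ⟨h1, h2, h3, h4⟩ := hb v
    refine ⟨?_, ?_, ?_, ?_⟩
    · exact_mod_cast (by omega : (0 : ℤ) ≤ (p v).1 - x0)
    · exact_mod_cast (by omega : (p v).1 - x0 ≤ W)
    · exact_mod_cast (by omega : (0 : ℤ) ≤ (p v).2 - y0)
    · exact_mod_cast (by omega : (p v).2 - y0 ≤ H)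
  have t1 := tri_box (bx A).1 (bx A).2.1 (bx B).1 (bx B).2.1 (bx none).1 (bx none).2.1
    (bx A).2.2.1 (bx A).2.2.2 (bx B).2.2.1 (bx B).2.2.2 (bx none).2.2.1 (bx none).2.2.2
  have t2 := tri_box (bx B).1 (bx B).2.1 (bx A).1 (bx A).2.1 (bx none).1 (bx none).2.1
    (bx B).2.2.1 (bx B).2.2.2 (bx A).2.2.1 (bx A).2.2.2 (bx none).2.2.1 (bx none).2.2.2
  have t3 : |S| ≤ W * H := by
    rw [abs_le, hS]; simp only [hx, hy]; constructor <;> linarith only [t1, t2]
  exact_mod_cast e5.trans t3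

end Pool.Agent.Work.MP_37ce0f_lc.N
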