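import Pool.Agent.Work.MP_37ce0f_lc.N.Lower

namespace Pool.Agent.Work.MP_37ce0f_lc.N
variable {k L : ℕ}

/-- slope of a leg -/
def sl (i : Fin k) (b : Bool) : ℤ := if b then -((i : ℤ) + 1) else (i : ℤ) + 1

/-- height of a vertex -/
def ht (i : Fin k) (t : Fin (L + 1)) : ℤ := (i : ℤ) * (L + 1) + 1 + t

def pos : V k L → ℤ × ℤ
  | none => (0, 0)
  | some (i, b, t) => (sl i b * ht i t, ht i t)

theorem sl_inj {i j : Fin k} {b c : Bool} (h : sl i b = sl j c) : i = j ∧ b = c := by
  unfold sl at h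
  cases b <;> cases c <;> simp only [if_true, Bool.false_eq_true, if_false] at h
  · exact ⟨Fin.ext (by omega), rfl⟩
  · omega
  · omega
  · exact ⟨Fin.ext (by omega), rfl⟩

theorem sl_abs (i : Fin k) (b : Bool) : |sl i b| = i + 1 := by
  unfold sl
  split_ifs
  · rw [abs_neg, abs_of_nonneg (by positivity)]
  · rw [abs_of_nonneg (by positivity)]

theorem ht_pos (i : Fin k) (t : Fin (L + 1)) : 0 < ht i t := by unfold ht; positivity

theorem ht_lt {i j : Fin k} (h : i < j) (t s : Fin (L + 1)) : ht i t < ht j s := by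
  have h1 : (i : ℤ) + 1 ≤ j := by exact_mod_cast h
  have h2 : (t : ℤ) < L + 1 := by exact_mod_cast t.isLt
  have h3 : (0 : ℤ) ≤ s := by positivity
  have := mul_le_mul_of_nonneg_right h1 (show (0 : ℤ) ≤ L + 1 by positivity)
  unfold ht; linarith

theorem inBox : InBox (pos (k := k) (L := L)) (2 * k ^ 2 * (L + 1)) (k * (L + 1)) := by
  refine ⟨-(k ^ 2 * (L + 1)), 0, ?_⟩
  have p0 : (0 : ℤ) ≤ k ^ 2 * (L + 1) := by positivity
  rintro (_ | ⟨i, b, t⟩)
  · simp only [pos]; push_cast
    exact ⟨by linarith, by linarith, trivial, by positivity⟩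
  · have h1 : (i : ℤ) + 1 ≤ k := by exact_mod_cast i.isLt
    have h2 : (t : ℤ) < L + 1 := by exact_mod_cast t.isLt
    have h3 := mul_le_mul_of_nonneg_right h1 (show (0 : ℤ) ≤ L + 1 by positivity)
    have h4 : ht i t ≤ k * (L + 1) := by unfold ht; linarith
    have h5 := ht_pos i t
    have h6 : |sl i b * ht i t| ≤ k ^ 2 * (L + 1) := by
      rw [abs_mul, sl_abs, abs_of_pos h5]
      calc _ ≤ (k : ℤ) * (k * (L + 1)) := mul_le_mul h1 h4 h5.le (by positivity)
        _ = _ := by ring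
    rw [abs_le] at h6
    simp only [pos]; push_cast
    exact ⟨by linarith, by linarith, h5.le, by linarith⟩

theorem nested : Nested (pos (k := k) (L := L)) := by
  intro i j h b t
  have h1 : (ht i t : ℝ) < ht j (0 : Fin (L + 1)) := by exact_mod_cast ht_lt h t 0
  have h2 : (0 : ℝ) < ht i t := by exact_mod_cast ht_pos i t
  have h3 : |sl i b| ≤ j + 1 := by
    have : (i : ℤ) < j := by exact_mod_cast h
    rw [sl_abs]; omega
  have h4 : |(sl i b : ℝ)| ≤ j + 1 := by exact_mod_cast h3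
  rw [abs_le] at h4
  have h5 : (0 : ℝ) < (j : ℕ) + 1 := by positivity
  have h6 := h2.trans h1
  have e1 : (sl j false : ℝ) = (j : ℕ) + 1 := by simp [sl]
  have e2 : (sl j true : ℝ) = -((j : ℕ) + 1) := by simp [sl]
  refine tri_mem.2 ⟨ht i t * ((j : ℕ) + 1 + sl i b) / (2 * ((j : ℕ) + 1) * ht j (0 : Fin (L + 1))),
    ht i t * ((j : ℕ) + 1 - sl i b) / (2 * ((j : ℕ) + 1) * ht j (0 : Fin (L + 1))),
    div_nonneg (mul_nonneg h2.le (by linarith)) (by positivity),
    div_nonneg (mul_nonneg h2.le (by linarith)) (by positivity), ?_, ?_, ?_⟩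
  · rw [← add_div, div_le_one (by positivity)]; nlinarith
  · simp only [pos, toR]; push_cast; rw [e1, e2]; field_simp; ring
  · simp only [pos, toR]; push_cast; field_simp; ring

theorem outside : Outside (pos (k := k) (L := L)) := by
  intro i b t h0 h
  obtain ⟨x, y, -, -, h3, -, h5⟩ := tri_mem.1 h
  have h1 : (0 : ℝ) < ht i (0 : Fin (L + 1)) := by exact_mod_cast ht_pos i 0
  have h2 : ht i (0 : Fin (L + 1)) < ht i t := by
    have := Fin.pos_iff_ne_zero.2 h0
    rw [Fin.lt_def] at this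
    unfold ht; omega
  have h4 : (ht i (0 : Fin (L + 1)) : ℝ) < ht i t := by exact_mod_cast h2
  simp only [pos, toR] at h5
  push_cast at h5
  nlinarith

theorem adj_root (i : Fin k) (b : Bool) : (G k L).Adj (some (i, b, 0)) none :=
  ⟨by simp, Or.inr (Or.inl ⟨rfl, i, b, rfl⟩)⟩

theorem adj_leg (i : Fin k) (b : Bool) (t : Fin L) :
    (G k L).Adj (some (i, b, t.succ)) (some (i, b, t.castSucc)) :=
  ⟨by simp [Fin.ext_iff], Or.inr (Or.inr (Or.inr ⟨i, b, t, rfl, rfl⟩))⟩

/-- `F` increases along some walk -/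
def Up (F : V k L → ℝ) (u v : V k L) : Prop :=
  ∃ w : (G k L).Walk u v, ∀ e ∈ w.darts, F e.fst < F e.snd

theorem Up.refl (F : V k L → ℝ) (u : V k L) : Up F u u := ⟨.nil, by simp⟩

theorem Up.trans {F : V k L → ℝ} {u v w : V k L} (h : Up F u v) (h' : Up F v w) : Up F u w := by
  obtain ⟨p, hp⟩ := h
  obtain ⟨q, hq⟩ := h'
  refine ⟨p.append q, fun e he => ?_⟩
  rw [SimpleGraph.Walk.darts_append, List.mem_append] at he
  exact he.elim (hp e) (hq e)

theorem Up.edge {F : V k L → ℝ} {u v : V k L} (h : (G k L).Adj u v) (k : F u < F v) : Up F u v :=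
  ⟨.cons h .nil, by simpa using k⟩

theorem Up.rev {F : V k L → ℝ} {u v : V k L} (h : Up (fun x => -F x) u v) : Up F v u := by
  obtain ⟨p, hp⟩ := h
  refine ⟨p.reverse, fun e he => ?_⟩
  have := hp _ (SimpleGraph.Walk.mem_darts_reverse.1 he)
  simpa using this

/-- the functional `(x, y) ↦ f x + g y` -/
def fn (f g : ℝ) (v : V k L) : ℝ := f * (pos v).1 + g * (pos v).2

theorem down {f g : ℝ} {i : Fin k} {b : Bool} (h : f * sl i b + g < 0) {s : Fin (L + 1)} :
    ∀ t, s ≤ t → Up (fn f g) (some (i, b, t)) (some (i, b, s)) := by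
  intro t
  induction t using Fin.induction with
  | zero => intro k; rw [Fin.le_zero_iff.1 k]; exact Up.refl _ _
  | succ t ih =>
    intro k
    rcases k.eq_or_lt with rfl | k
    · exact Up.refl _ _
    · refine (Up.edge (adj_leg i b t) ?_).trans (ih (Fin.le_castSucc_iff.2 k))
      simp only [fn, pos, ht, Fin.val_succ, Fin.val_castSucc]; push_cast; linarith

theorem down0 {f g : ℝ} {i : Fin k} {b : Bool} (h : f * sl i b + g < 0) (t : Fin (L + 1)) :
    Up (fn f g) (some (i, b, t)) none := by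
  refine (down h t (Fin.zero_le _)).trans (Up.edge (adj_root i b) ?_)
  have h2 : (0 : ℝ) < ht i (0 : Fin (L + 1)) := by exact_mod_cast ht_pos i 0
  have := mul_neg_of_neg_of_pos h h2
  simp only [fn, pos]; push_cast; linarith

theorem fn_neg (f g : ℝ) : (fun x : V k L => -fn f g x) = fn (-f) (-g) := by
  funext x; unfold fn; ring

theorem isMono : IsMono (G k L) pos := by
  have key : ∀ u v : V k L, ∃ f g, Up (fn f g) u v := by
    rintro (_ | ⟨i, b, t⟩) (_ | ⟨j, c, s⟩)
    · exact ⟨0, 0, Up.refl _ _⟩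
    · exact ⟨0, 1, Up.rev (by rw [fn_neg]; exact down0 (by simp) s)⟩
    · exact ⟨0, -1, down0 (by simp) t⟩
    · rcases lt_trichotomy (sl i b) (sl j c) with h | h | h
      · have h' : (sl i b : ℝ) < sl j c := by exact_mod_cast h
        exact ⟨2, -(sl i b + sl j c), (down0 (by linarith) t).trans
          (Up.rev (by rw [fn_neg]; exact down0 (by linarith) s))⟩
      · obtain ⟨rfl, rfl⟩ := sl_inj h
        rcases le_total s t with k | k
        · exact ⟨0, -1, down (by simp) t k⟩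
        · exact ⟨0, 1, Up.rev (by rw [fn_neg]; exact down (by simp) s k)⟩
      · have h' : (sl j c : ℝ) < sl i b := by exact_mod_cast h
        exact ⟨-2, sl i b + sl j c, (down0 (by linarith) t).trans
          (Up.rev (by rw [fn_neg]; exact down0 (by linarith) s))⟩
  intro u v
  obtain ⟨f, g, w, hw⟩ := key u v
  refine ⟨w.bypass, w.bypass_isPath, (f, g), fun e he => ?_⟩
  have := hw e (w.darts_bypass_subset_darts he)
  unfold fn at this
  linarith

/-- the points of an edge: a piece of a leg between two heights, or a horizontal chord -/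
theorem edge_cases {u v : V k L} (h : (G k L).Adj u v) :
    (∃ i b, ∃ t : Fin (L + 1), ∃ z : V k L, s(u, v) = s(z, some (i, b, t)) ∧
      (t = 0 ∧ z = none ∨ ∃ r : Fin L, t = r.succ ∧ z = some (i, b, r.castSucc)) ∧
      ∀ q ∈ segment ℝ (toR (pos u)) (toR (pos v)), q.1 = sl i b * q.2 ∧ 0 ≤ q.2 ∧ q.2 ≤ ht i t ∧
        (t ≠ 0 → (ht i t : ℝ) - 1 ≤ q.2)) ∨
    ∃ i, s(u, v) = s(some (i, false, 0), some (i, true, 0)) ∧
      ∀ q ∈ segment ℝ (toR (pos u)) (toR (pos v)),
        q.2 = ht i (0 : Fin (L + 1)) ∧ |q.1| ≤ ((i : ℕ) + 1) * q.2 := by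
  wlog k : (u = none ∧ ∃ i b, v = some (i, b, 0)) ∨
      (∃ i, u = some (i, false, 0) ∧ v = some (i, true, 0)) ∨
      ∃ i b, ∃ t : Fin L, u = some (i, b, t.castSucc) ∧ v = some (i, b, t.succ) generalizing u v
  · rw [Sym2.eq_swap, segment_symm]
    exact this h.symm (h.2.resolve_left k)
  rcases k with ⟨rfl, i, b, rfl⟩ | ⟨i, rfl, rfl⟩ | ⟨i, b, t, rfl, rfl⟩
  · refine Or.inl ⟨i, b, 0, none, rfl, Or.inl ⟨rfl, rfl⟩, ?_⟩
    rintro q ⟨x, y, hx, hy, e, rfl⟩
    have h2 : (0 : ℝ) < ht i (0 : Fin (L + 1)) := by exact_mod_cast ht_pos i 0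
    simp only [toR, pos, Prod.fst_add, Prod.snd_add, Prod.smul_fst, Prod.smul_snd, smul_eq_mul]
    push_cast
    exact ⟨by ring, by positivity, by nlinarith, fun k => absurd rfl k⟩
  · refine Or.inr ⟨i, rfl, ?_⟩
    rintro q ⟨x, y, hx, hy, e, rfl⟩
    have h2 : (0 : ℝ) < ht i (0 : Fin (L + 1)) := by exact_mod_cast ht_pos i 0
    have h3 : (0 : ℝ) < ((i : ℕ) + 1) * ht i (0 : Fin (L + 1)) := by positivity
    obtain rfl : y = 1 - x := by linarith
    simp only [toR, pos, sl, Prod.fst_add, Prod.snd_add, Prod.smul_fst, Prod.smul_snd, smul_eq_mul,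
      if_true, Bool.false_eq_true, if_false]
    push_cast
    refine ⟨by ring, abs_le.2 ⟨?_, ?_⟩⟩ <;> nlinarith
  · refine Or.inl ⟨i, b, t.succ, _, rfl, Or.inr ⟨t, rfl, rfl⟩, ?_⟩
    rintro q ⟨x, y, hx, hy, e, rfl⟩
    have h2 : (0 : ℝ) < ht i t.castSucc := by exact_mod_cast ht_pos i t.castSucc
    have h3 : (ht i t.succ : ℝ) = ht i t.castSucc + 1 := by
      simp only [ht, Fin.val_succ, Fin.val_castSucc]; push_cast; ring
    obtain rfl : y = 1 - x := by linarith
    simp only [toR, pos, Prod.fst_add, Prod.snd_add, Prod.smul_fst, Prod.smul_snd, smul_eq_mul]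
    push_cast
    rw [h3]
    exact ⟨by ring, by nlinarith, by nlinarith, fun _ => by nlinarith⟩

theorem pos_inj : Function.Injective (pos (k := k) (L := L)) := by
  rintro (_ | ⟨i, b, t⟩) (_ | ⟨j, c, s⟩) h
  · rfl
  · have := ht_pos j s; simp only [pos, Prod.mk.injEq] at h; omega
  · have := ht_pos i t; simp only [pos, Prod.mk.injEq] at h; omega
  · simp only [pos, Prod.mk.injEq] at h
    obtain ⟨h1, h2⟩ := h
    rw [h2] at h1
    obtain ⟨rfl, rfl⟩ := sl_inj (mul_right_cancel₀ (ht_pos j s).ne' h1)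
    obtain rfl : t = s := by unfold ht at h2; exact Fin.ext (by omega)
    rfl

/-- a point of a leg edge on a chord is the base of the leg -/
theorem leg_chord {i j : Fin k} {b : Bool} {t : Fin (L + 1)} {q : ℝ × ℝ}
    (h1 : q.1 = sl i b * q.2) (h2 : q.2 ≤ ht i t) (h3 : q.2 = ht j (0 : Fin (L + 1)))
    (h4 : |q.1| ≤ ((j : ℕ) + 1) * q.2) : i = j := by
  have p : (0 : ℝ) < ht j (0 : Fin (L + 1)) := by exact_mod_cast ht_pos j 0
  have a : |(sl i b : ℝ)| = (i : ℕ) + 1 := by exact_mod_cast sl_abs i b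
  rw [h1, h3, abs_mul, a, abs_of_pos p] at h4
  have h5 : ((i : ℕ) : ℝ) ≤ (j : ℕ) := by linarith [le_of_mul_le_mul_right h4 p]
  have h6 : i ≤ j := by exact_mod_cast h5
  rcases h6.eq_or_lt with e | e
  · exact e
  · have : (ht i t : ℝ) < ht j (0 : Fin (L + 1)) := by exact_mod_cast ht_lt e t 0
    linarith

theorem planar : Planar (G k L) pos := by
  refine ⟨pos_inj, fun u v w h hw => ?_, fun u v x y h h' hne q hq hq' => ?_⟩
  · rw [← Sym2.mem_iff]
    rcases edge_cases h with ⟨i, b, t, z, e, hz, k⟩ | ⟨i, e, k⟩ <;> rw [e, Sym2.mem_iff] <;>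
      have k := k _ hw <;> rcases w with _ | ⟨j, c, s⟩ <;> simp only [toR, pos] at k
    · rcases hz with ⟨-, rfl⟩ | ⟨r, rfl, rfl⟩
      · exact Or.inl rfl
      · have h1 : ht i r.succ - 1 ≤ 0 := by exact_mod_cast k.2.2.2 (Fin.succ_ne_zero r)
        have := ht_pos i r.castSucc
        simp only [ht, Fin.val_succ, Fin.val_castSucc] at h1 this
        push_cast at h1; omega
    · have h1 : sl j c * ht j s = sl i b * ht j s := by exact_mod_cast k.1
      obtain ⟨rfl, rfl⟩ := sl_inj (mul_right_cancel₀ (ht_pos j s).ne' h1)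
      have h2 : ht j s ≤ ht j t := by exact_mod_cast k.2.2.1
      rcases hz with ⟨rfl, rfl⟩ | ⟨r, rfl, rfl⟩
      · obtain rfl : s = 0 := by
          simp only [ht, Fin.val_zero] at h2; exact Fin.ext (by simp only [Fin.val_zero]; omega)
        exact Or.inr rfl
      · have h3 : ht j r.succ - 1 ≤ ht j s := by exact_mod_cast k.2.2.2 (Fin.succ_ne_zero r)
        simp only [ht, Fin.val_succ] at h2 h3
        push_cast at h2 h3
        simp only [Option.some.injEq, Prod.mk.injEq, true_and, Fin.ext_iff, Fin.val_succ,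
          Fin.val_castSucc]
        omega
    · have h1 : (0 : ℤ) = ht i (0 : Fin (L + 1)) := by exact_mod_cast k.1
      have := ht_pos i (0 : Fin (L + 1))
      omega
    · obtain rfl := leg_chord (i := j) (b := c) (t := s)
        (q := (((sl j c * ht j s : ℤ) : ℝ), ((ht j s : ℤ) : ℝ))) (by simp) le_rfl k.1 k.2
      have h1 : ht j s = ht j (0 : Fin (L + 1)) := by exact_mod_cast k.1
      obtain rfl : s = 0 := by
        simp only [ht, Fin.val_zero] at h1; exact Fin.ext (by simp only [Fin.val_zero]; omega)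
      cases c <;> simp
  · have vt : ∀ (i : Fin k) b (t : Fin (L + 1)), q.1 = sl i b * q.2 → q.2 = ht i t →
        ∃ w : V k L, q = toR (pos w) := fun i b t a1 a2 =>
      ⟨some (i, b, t), Prod.ext (by simp only [toR, pos]; push_cast; rw [a1, a2]) a2⟩
    rcases edge_cases h with ⟨i, b, t, z, e, hz, k⟩ | ⟨i, e, k⟩ <;>
      rcases edge_cases h' with ⟨j, c, s, z', e', hz', k'⟩ | ⟨j, e', k'⟩ <;>
      have k := k _ hq <;> have k' := k' _ hq'
    · rcases k.2.1.eq_or_lt with g | g
      · exact ⟨none, Prod.ext (by simp [toR, pos, k.1, ← g]) (by simp [toR, pos, ← g])⟩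
      have h1 : (sl i b : ℝ) = sl j c := mul_right_cancel₀ g.ne' (k.1.symm.trans k'.1)
      obtain ⟨rfl, rfl⟩ := sl_inj (by exact_mod_cast h1 : sl i b = sl j c)
      rcases lt_trichotomy t s with g | rfl | g
      · have a1 : ht i t ≤ ht i s - 1 := by have := Fin.lt_def.1 g; unfold ht; omega
        have a2 : (ht i t : ℝ) ≤ ht i s - 1 := by exact_mod_cast a1
        have := k'.2.2.2 (Fin.ne_zero_of_lt g)
        exact vt i b t k.1 (by linarith [k.2.2.1])
      · refine absurd ?_ hne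
        rw [e, e']
        rcases hz with ⟨a1, rfl⟩ | ⟨r, a1, rfl⟩ <;> rcases hz' with ⟨a2, rfl⟩ | ⟨r', a2, rfl⟩
        · rfl
        · exact absurd (a2.symm.trans a1) (Fin.succ_ne_zero _)
        · exact absurd (a1.symm.trans a2) (Fin.succ_ne_zero _)
        · rw [Fin.succ_injective _ (a1.symm.trans a2)]
      · have a1 : ht i s ≤ ht i t - 1 := by have := Fin.lt_def.1 g; unfold ht; omega
        have a2 : (ht i s : ℝ) ≤ ht i t - 1 := by exact_mod_cast a1
        have := k.2.2.2 (Fin.ne_zero_of_lt g)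
        exact vt i b s k.1 (by linarith [k'.2.2.1])
    · obtain rfl := leg_chord k.1 k.2.2.1 k'.1 k'.2
      exact vt i b 0 k.1 k'.1
    · obtain rfl := leg_chord k'.1 k'.2.2.1 k.1 k.2
      exact vt j c 0 k'.1 k.1
    · have h1 : ht i (0 : Fin (L + 1)) = ht j (0 : Fin (L + 1)) := by
        exact_mod_cast k.1.symm.trans k'.1
      obtain rfl : i = j := by
        rcases lt_trichotomy i j with g | g | g
        · exact absurd h1 (ht_lt g _ _).ne
        · exact g
        · exact absurd h1 (ht_lt g _ _).ne'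
      exact absurd (e.trans e'.symm) hne

end Pool.Agent.Work.MP_37ce0f_lc.N
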